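import Pool.Agent.H12.KTH.Stmts
import Pool.Agent.H70.Dense.Q3

/-!
# Every family has a configuration of three lines
-/

set_option autoImplicit false

namespace Pool.KTH.CFG80

open Finset Real
open Pool.Agent.H49.Ent Pool.Agent.H32.Dense
open Pool.Agent.H24.KTH (dsv lvv lev cap Yf kp LevOne LevPlus LevZero)

section Fam

variable {d J : ℕ} {Ω : Type} [Fintype Ω] {ζ : Type} {p : Ω → ℝ} {Z : Ω → ζ}
  {v : Ω → Fin d → ℤ} {u : Ω → Fin d → ℝ} {τ : Ω → ℤ}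

lemma vtau (h : IsFam (2 ^ J) p Z v u τ) {e : ℝ} (he : lm J - e ≤ CH p τ (bv Z v)) :
    CH p v Z + lm J - e ≤ CH p (fun ω => (τ ω, v ω)) Z := by
  have e1 := CH_chain h.hp τ v Z
  have e5 : CH p τ (fun ω => (v ω, Z ω)) = CH p τ (bv Z v) := rfl
  linarith

/-- `H(v | Z, τ, position) ≥ L + log M - e - sb`. -/
lemma va_lower (h : IsFam (2 ^ J) p Z v u τ) {e : ℝ} (he : lm J - e ≤ CH p τ (bv Z v)) :
    CH p v Z + lm J - e - CH p (pp J u v τ) Z ≤ CH p v (av (2 ^ J) Z v u τ) := by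
  have hp := h.hp
  have e1 := vtau h he
  have e2 := CH_chain hp v (pp J u v τ) Z
  have e3 : CH p (fun ω => (v ω, pp J u v τ ω)) Z = CH p (fun ω => (τ ω, v ω)) Z := by
    refine CH_congr hp ?_ ?_ (fun _ _ _ _ h => h) (fun _ _ _ _ h => h)
    · intro ω ω' _ _ e
      simp only [pp, Prod.mk.injEq] at e ⊢
      tauto
    · intro ω ω' a b e
      simp only [Prod.mk.injEq] at e
      have hu := h.hu ω ω' a b (by simp only [Prod.mk.injEq]; exact ⟨e.1.2, e.2⟩)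
      simp only [pp]
      rw [hu, e.1.1, e.1.2]
  have e4 : CH p v (fun ω => (pp J u v τ ω, Z ω)) = CH p v (av (2 ^ J) Z v u τ) := by
    refine CH_congr hp ?_ ?_ ?_ ?_ <;>
    · intro ω ω' _ _ e
      simp only [av, pp, Prod.mk.injEq] at e ⊢
      tauto
  linarith


/-- The two lines and their crossing time. -/
lemma cpP (h : IsFam (2 ^ J) p Z v u τ) {e : ℝ} (he : lm J - e ≤ CH p τ (bv Z v)) :
    2 * CH p v Z + 2 * lm J - CH p (pp J u v τ) Z - 2 * e ≤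
      CH (pP (2 ^ J) p Z v u τ) (fun w => ((v w.1.1.1, v w.2.1), τ w.1.1.1))
        (fun w => Z w.1.1.1) := by
  have hp := h.hp
  have hq := pP_nonneg (M := 2 ^ J) (Z := Z) (v := v) (u := u) (τ := τ) hp
  have hS := pP_snd (M := 2 ^ J) (Z := Z) (v := v) (u := u) (τ := τ) hp
  have e0 : CH (pP (2 ^ J) p Z v u τ) (fun w => ((v w.1.1.1, v w.2.1), τ w.1.1.1))
      (fun w => Z w.1.1.1) = CH (pP (2 ^ J) p Z v u τ)
        (fun w => (v w.1.1.1, (τ w.1.1.1, v w.2.1))) (fun w => Z w.1.1.1) := by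
    refine CH_congr hq ?_ ?_ (fun _ _ _ _ h => h) (fun _ _ _ _ h => h) <;>
    · intro ω ω' _ _ e
      simp only [Prod.mk.injEq] at e ⊢
      tauto
  have e1 := CH_chain hq (fun w => v w.1.1.1) (fun w => (τ w.1.1.1, v w.2.1))
    (fun w => Z w.1.1.1)
  have e2 : CH (pP (2 ^ J) p Z v u τ) (fun w => (τ w.1.1.1, v w.2.1)) (fun w => Z w.1.1.1) =
      CH p (fun ω => (τ ω, v ω)) Z := by
    rw [← (hS.comp (dbl_fst hp)).CH (fun ω => (τ ω, v ω)) Z]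
    refine CH_eqOn hq (fun w hw => ?_) fun w hw => ?_
    · have s := (pP_supp h hw).2.2.1
      rw [s.2.1]
    · have s := (pP_supp h hw).2.2.1
      rw [s.1]
  have e3 : CH (pP (2 ^ J) p Z v u τ) (fun w => v w.1.1.1)
      (fun w => (av (2 ^ J) Z v u τ w.1.1.1, w.2)) ≤ CH (pP (2 ^ J) p Z v u τ)
      (fun w => v w.1.1.1) (fun w => ((τ w.1.1.1, v w.2.1), Z w.1.1.1)) := by
    refine CH_mono_cond hq fun w w' _ _ e => ?_
    simp only [av, Prod.mk.injEq] at e ⊢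
    refine ⟨⟨e.1.1.2, ?_⟩, e.1.1.1⟩
    rw [e.2]
  rw [pP_v₀ h] at e3
  have e4 := va_lower h he
  have e5 := vtau h he
  linarith

lemma csP (h : IsFam (2 ^ J) p Z v u τ) {e : ℝ} (he : lm J - e ≤ CH p τ (bv Z v)) :
    lm J - e ≤ CH (pP (2 ^ J) p Z v u τ) (fun w => τ w.1.1.2)
      (fun w => ((v w.1.1.1, v w.2.1), τ w.1.1.1, Z w.1.1.1)) := by
  have hp := h.hp
  have hq := pP_nonneg (M := 2 ^ J) (Z := Z) (v := v) (u := u) (τ := τ) hp
  refine he.trans ?_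
  rw [← pP_s h]
  refine CH_mono_cond hq fun w w' _ _ e => ?_
  simp only [Prod.mk.injEq] at e ⊢
  obtain ⟨⟨e0, e1⟩, e2⟩ := e
  simp [e1, e2]

/-- Variables of the first two lines given everything of the third line. -/
lemma glueC {S T V : Type} (h : IsFam (2 ^ J) p Z v u τ)
    (X : ((Ω × Ω) × Ω) × (Ω × Ω) → S) {Y : ((Ω × Ω) × Ω) × (Ω × Ω) → T}
    (W : (Ω × Ω) × Ω → V)
    (hd : Det (pP (2 ^ J) p Z v u τ) Y (fun w => av (2 ^ J) Z v u τ w.1.1.2)) :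
    CH (pC (2 ^ J) p Z v u τ) (fun w => X w.1) (fun w => (Y w.1, W w.2)) =
      CH (pP (2 ^ J) p Z v u τ) X Y :=
  CH_glue_fst (pP_nonneg h.hp) (tri_nonneg h.hp)
    (lawC (M := 2 ^ J) (Z := Z) (v := v) (u := u) (τ := τ) h.hp) X W hd

lemma clC (h : IsFam (2 ^ J) p Z v u τ) {e : ℝ} (he : lm J - e ≤ CH p τ (bv Z v)) :
    3 * CH p v Z + 4 * lm J - 2 * CH p (pp J u v τ) Z - 4 * e ≤
      CH (pC (2 ^ J) p Z v u τ) (fun w => ((v w.1.1.1.1, v w.1.2.1, v w.2.1.1),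
        τ w.1.1.1.1, τ w.1.1.1.2)) (fun w => Z w.1.1.1.1) := by
  have hp := h.hp
  have hqP := pP_nonneg (M := 2 ^ J) (Z := Z) (v := v) (u := u) (τ := τ) hp
  have hq := pC_nonneg (M := 2 ^ J) (Z := Z) (v := v) (u := u) (τ := τ) hp
  have hF := pC_fst (M := 2 ^ J) (Z := Z) (v := v) (u := u) (τ := τ) hp
  have e0 : CH (pC (2 ^ J) p Z v u τ) (fun w => ((v w.1.1.1.1, v w.1.2.1, v w.2.1.1),
        τ w.1.1.1.1, τ w.1.1.1.2)) (fun w => Z w.1.1.1.1) =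
      CH (pC (2 ^ J) p Z v u τ) (fun w => (v w.2.1.1, (τ w.1.1.1.2,
        ((v w.1.1.1.1, v w.1.2.1), τ w.1.1.1.1)))) (fun w => Z w.1.1.1.1) := by
    refine CH_congr hq ?_ ?_ (fun _ _ _ _ h => h) (fun _ _ _ _ h => h) <;>
    · intro ω ω' _ _ e
      simp only [Prod.mk.injEq] at e ⊢
      tauto
  have e1 := CH_chain hq (fun w => v w.2.1.1) (fun w => (τ w.1.1.1.2,
    ((v w.1.1.1.1, v w.1.2.1), τ w.1.1.1.1))) (fun w => Z w.1.1.1.1)
  have e2 := hF.CH (fun w => (τ w.1.1.2, ((v w.1.1.1, v w.2.1), τ w.1.1.1)))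
    (fun w => Z w.1.1.1)
  have e3 : CH (pC (2 ^ J) p Z v u τ) (fun w => v w.2.1.1)
      (fun w => (av (2 ^ J) Z v u τ w.2.1.1, w.1)) ≤ CH (pC (2 ^ J) p Z v u τ)
      (fun w => v w.2.1.1) (fun w => ((τ w.1.1.1.2,
        ((v w.1.1.1.1, v w.1.2.1), τ w.1.1.1.1)), Z w.1.1.1.1)) := by
    refine CH_mono_cond hq fun w w' _ _ e => ?_
    simp only [Prod.mk.injEq] at e ⊢
    simp [e.2]
  rw [pC_v₂ h] at e3
  have e4 := va_lower h he
  have e5 := CH_chain hqP (fun w => τ w.1.1.2) (fun w => ((v w.1.1.1, v w.2.1), τ w.1.1.1))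
    (fun w => Z w.1.1.1)
  have e6 : CH (pP (2 ^ J) p Z v u τ) (fun w => τ w.1.1.2)
      (fun w => (((v w.1.1.1, v w.2.1), τ w.1.1.1), Z w.1.1.1)) =
      CH (pP (2 ^ J) p Z v u τ) (fun w => τ w.1.1.2)
      (fun w => ((v w.1.1.1, v w.2.1), τ w.1.1.1, Z w.1.1.1)) := by
    refine CH_congr hqP ?_ ?_ ?_ ?_ <;>
    · intro ω ω' _ _ e
      simp only [Prod.mk.injEq] at e ⊢
      tauto
  have e7 := csP h he
  have e8 := cpP h he
  linarith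

lemma cvC (h : IsFam (2 ^ J) p Z v u τ) {e : ℝ} (he : lm J - e ≤ CH p τ (bv Z v)) :
    CH p v Z + lm J - CH p (pp J u v τ) Z - e ≤
      CH (pC (2 ^ J) p Z v u τ) (fun w => v w.1.2.1)
        (fun w => ((pp J (fun w => u w.1.1.1.1) (fun w => v w.1.1.1.1) (fun w => τ w.1.1.1.1) w,
          pp J (fun w => u w.2.1.1) (fun w => v w.2.1.1) (fun w => τ w.2.1.2) w),
          Z w.1.1.1.1)) := by
  have hp := h.hp
  have hqP := pP_nonneg (M := 2 ^ J) (Z := Z) (v := v) (u := u) (τ := τ) hp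
  have hq := pC_nonneg (M := 2 ^ J) (Z := Z) (v := v) (u := u) (τ := τ) hp
  have e0 := va_lower h he
  have e1 := glueC h (fun w => v w.2.1) (Y := fun w => w.1) (fun w => w) (by
    intro w w' a b e
    simp only at e
    simp only [e])
  have e2 : CH (pP (2 ^ J) p Z v u τ) (fun w => v w.2.1)
      (fun w => (av (2 ^ J) Z v u τ w.2.1, w.1)) ≤
      CH (pP (2 ^ J) p Z v u τ) (fun w => v w.2.1) (fun w => w.1) := by
    refine CH_mono_cond hqP fun w w' _ _ e => ?_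
    exact (Prod.ext_iff.mp e).2
  rw [pP_v₁ h] at e2
  have e3 : CH (pC (2 ^ J) p Z v u τ) (fun w => v w.1.2.1) (fun w => (w.1.1, w.2)) ≤
      CH (pC (2 ^ J) p Z v u τ) (fun w => v w.1.2.1)
        (fun w => ((pp J (fun w => u w.1.1.1.1) (fun w => v w.1.1.1.1) (fun w => τ w.1.1.1.1) w,
          pp J (fun w => u w.2.1.1) (fun w => v w.2.1.1) (fun w => τ w.2.1.2) w),
          Z w.1.1.1.1)) := by
    refine CH_mono_cond hq fun w w' _ _ e => ?_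
    simp only [Prod.mk.injEq] at e
    obtain ⟨e0, e1⟩ := e
    simp [pp, e0, e1]
  linarith

lemma ctC (h : IsFam (2 ^ J) p Z v u τ) {e : ℝ} (he : lm J - e ≤ CH p τ (bv Z v)) :
    4 * lm J - 4 * e ≤ CH (pC (2 ^ J) p Z v u τ)
      (fun w => ((τ w.1.1.2, τ w.1.2.2), τ w.2.1.2, τ w.2.2))
      (fun w => ((v w.1.1.1.1, v w.1.2.1, v w.2.1.1), (τ w.1.1.1.1, τ w.1.1.1.2),
        Z w.1.1.1.1)) := by
  have hp := h.hp
  have hqP := pP_nonneg (M := 2 ^ J) (Z := Z) (v := v) (u := u) (τ := τ) hp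
  have hq := pC_nonneg (M := 2 ^ J) (Z := Z) (v := v) (u := u) (τ := τ) hp
  set W := fun w : (((Ω × Ω) × Ω) × (Ω × Ω)) × ((Ω × Ω) × Ω) =>
    ((v w.1.1.1.1, v w.1.2.1, v w.2.1.1), (τ w.1.1.1.1, τ w.1.1.1.2), Z w.1.1.1.1) with hW
  have e0 : CH (pC (2 ^ J) p Z v u τ)
      (fun w => ((τ w.1.1.2, τ w.1.2.2), τ w.2.1.2, τ w.2.2)) W =
      CH (pC (2 ^ J) p Z v u τ)
      (fun w => (τ w.2.2, (τ w.2.1.2, (τ w.1.2.2, τ w.1.1.2)))) W := by
    refine CH_congr hq ?_ ?_ (fun _ _ _ _ h => h) (fun _ _ _ _ h => h) <;>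
    · intro ω ω' _ _ e
      simp only [Prod.mk.injEq] at e ⊢
      tauto
  have c1 := CH_chain hq (fun w => τ w.2.2) (fun w => (τ w.2.1.2, (τ w.1.2.2, τ w.1.1.2))) W
  have c2 := CH_chain hq (fun w => τ w.2.1.2) (fun w => (τ w.1.2.2, τ w.1.1.2)) W
  have c3 := CH_chain hq (fun w => τ w.1.2.2) (fun w => τ w.1.1.2) W
  have d1 : CH p τ (bv Z v) ≤ CH (pC (2 ^ J) p Z v u τ) (fun w => τ w.2.2)
      (fun w => ((τ w.2.1.2, (τ w.1.2.2, τ w.1.1.2)), W w)) := by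
    rw [← pC_ρ h]
    refine CH_mono_cond hq fun w w' _ _ e => ?_
    simp only [Prod.mk.injEq] at e
    obtain ⟨⟨e0, e1⟩, e2⟩ := e
    simp [hW, e1, e2]
  have d2 : CH p τ (bv Z v) ≤ CH (pC (2 ^ J) p Z v u τ) (fun w => τ w.2.1.2)
      (fun w => ((τ w.1.2.2, τ w.1.1.2), W w)) := by
    rw [← pC_tr h]
    refine CH_mono_cond hq fun w w' _ _ e => ?_
    simp only [Prod.mk.injEq] at e
    obtain ⟨⟨e0, e1⟩, e2⟩ := e
    simp [hW, e1, e2]
  have d3 : CH p τ (bv Z v) ≤ CH (pC (2 ^ J) p Z v u τ) (fun w => τ w.1.2.2)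
      (fun w => (τ w.1.1.2, W w)) := by
    rw [← pP_r h, ← glueC h (fun w => τ w.2.2)
      (Y := fun w => ((bv Z v w.2.2, w.2.1), w.1)) (fun w => w) (by
        intro w w' a b e
        simp only [Prod.mk.injEq] at e
        simp only [e.2])]
    refine CH_mono_cond hq fun w w' _ _ e => ?_
    simp only [Prod.mk.injEq] at e
    obtain ⟨⟨⟨e0, e1⟩, e2⟩, e3⟩ := e
    simp [hW, e1, e2, e3]
  have d4 : CH p τ (bv Z v) ≤ CH (pC (2 ^ J) p Z v u τ) (fun w => τ w.1.1.2) W := by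
    rw [← pP_t₁ h, ← glueC h (fun w => τ w.1.2)
      (Y := fun w => ((bv Z v w.1.2, w.1.1), w.2)) (fun w => w) (by
        intro w w' a b e
        simp only [Prod.mk.injEq] at e
        simp only [e.1.2])]
    refine CH_mono_cond hq fun w w' _ _ e => ?_
    simp only [Prod.mk.injEq] at e
    obtain ⟨⟨⟨e0, e1⟩, e2⟩, e3⟩ := e
    simp [hW, e1, e2, e3]
  linarith

end Fam

/-- The configuration of a family. -/
noncomputable def cfg {d J : ℕ} (G : Fm d J) : Cf d J where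
  Ω := (((G.Ω × G.Ω) × G.Ω) × (G.Ω × G.Ω)) × ((G.Ω × G.Ω) × G.Ω)
  ζ := G.ζ
  fin := inferInstance
  q := pC (2 ^ J) G.p G.Z G.v G.u G.τ
  Z := fun w => G.Z w.1.1.1.1
  v₀ := fun w => G.v w.1.1.1.1
  v₁ := fun w => G.v w.1.2.1
  v₂ := fun w => G.v w.2.1.1
  u₀ := fun w => G.u w.1.1.1.1
  u₁ := fun w => G.u w.1.2.1
  u₂ := fun w => G.u w.2.1.1
  t := fun w => G.τ w.1.1.1.1
  s := fun w => G.τ w.1.1.1.2
  t₁ := fun w => G.τ w.1.1.2
  r := fun w => G.τ w.1.2.2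
  tr := fun w => G.τ w.2.1.2
  ta := fun w => G.τ w.2.2
  hq := (pC_cfg G.isFam).hq
  h1 := (pC_cfg G.isFam).h1
  hv₀ := (pC_cfg G.isFam).hv₀
  hv₁ := (pC_cfg G.isFam).hv₁
  hv₂ := (pC_cfg G.isFam).hv₂
  hu₀ := (pC_cfg G.isFam).hu₀
  hu₁ := (pC_cfg G.isFam).hu₁
  hu₂ := (pC_cfg G.isFam).hu₂
  ht := (pC_cfg G.isFam).ht
  hs := (pC_cfg G.isFam).hs
  ht₁ := fun w hw => (pP_cfg G.isFam).ht₁ _ (pC_supp G.isFam hw).1
  hr := fun w hw => (pP_cfg G.isFam).hr _ (pC_supp G.isFam hw).1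
  htr := (pC_cfg G.isFam).htr
  hta := (pC_cfg G.isFam).hρ
  cross01 := (pC_cfg G.isFam).cross01
  cross02 := (pC_cfg G.isFam).cross02

section Main

variable {d J : ℕ} (G : Fm d J)

lemma m0 : Marg (pC (2 ^ J) G.p G.Z G.v G.u G.τ) G.p (fun w => w.1.1.1.1) :=
  (pC_fst G.isFam.hp).comp ((pP_fst G.isFam.hp).comp (tri_1 G.isFam.hp))

lemma m0' : Marg (pC (2 ^ J) G.p G.Z G.v G.u G.τ) G.p (fun w => w.1.1.1.2) :=
  (pC_fst G.isFam.hp).comp ((pP_fst G.isFam.hp).comp (tri_2 G.isFam.hp))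

lemma m0'' : Marg (pC (2 ^ J) G.p G.Z G.v G.u G.τ) G.p (fun w => w.1.1.2) :=
  (pC_fst G.isFam.hp).comp ((pP_fst G.isFam.hp).comp (tri_3 G.isFam.hp))

lemma m1 : Marg (pC (2 ^ J) G.p G.Z G.v G.u G.τ) G.p (fun w => w.1.2.1) :=
  (pC_fst G.isFam.hp).comp ((pP_snd G.isFam.hp).comp (dbl_fst G.isFam.hp))

lemma m1' : Marg (pC (2 ^ J) G.p G.Z G.v G.u G.τ) G.p (fun w => w.1.2.2) :=
  (pC_fst G.isFam.hp).comp ((pP_snd G.isFam.hp).comp (dbl_snd G.isFam.hp))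

lemma m2 : Marg (pC (2 ^ J) G.p G.Z G.v G.u G.τ) G.p (fun w => w.2.1.1) :=
  (pC_snd G.isFam.hp).comp (tri_1 G.isFam.hp)

lemma m2' : Marg (pC (2 ^ J) G.p G.Z G.v G.u G.τ) G.p (fun w => w.2.1.2) :=
  (pC_snd G.isFam.hp).comp (tri_2 G.isFam.hp)

lemma m2'' : Marg (pC (2 ^ J) G.p G.Z G.v G.u G.τ) G.p (fun w => w.2.2) :=
  (pC_snd G.isFam.hp).comp (tri_3 G.isFam.hp)

lemma m01 : Marg (pC (2 ^ J) G.p G.Z G.v G.u G.τ) (dbl G.p (av (2 ^ J) G.Z G.v G.u G.τ))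
    (fun w => (w.1.1.1.1, w.1.2.1)) :=
  (pC_fst G.isFam.hp).comp (Marg.glue (Z₁ := av (2 ^ J) G.Z G.v G.u G.τ)
    (Z₂ := av (2 ^ J) G.Z G.v G.u G.τ) (tri_1 G.isFam.hp) (dbl_fst G.isFam.hp))

theorem y01_eq : (cfg G).y01 = G.Y :=
  (m01 G).ex (fun x => lvv (2 ^ J) (G.v x.1) (G.v x.2))

theorem spr {N : ℕ} {μ τ : ℝ} (h : G.Spr N μ τ) : (cfg G).Spr N μ τ := by
  intro Ω' _ q pr w hq hm hw
  refine ⟨h Ω' q (fun ω => (pr ω).1.1.1.1) w hq (hm.comp (m0 G)) hw, ?_⟩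
  refine (h Ω' q (fun ω => (pr ω).2.1.1) w hq (hm.comp (m2 G)) hw).trans (le_of_eq ?_)
  refine CH_eqOn hq (fun _ _ => rfl) fun ω hω => ?_
  have s := (pC_supp G.isFam (hm.pos hq hω)).2.2.1
  exact Prod.ext rfl s

theorem ok {e : ℝ} (he : G.Tm e) : (cfg G).Ok G.L G.sb (10 * e) := by
  have h := G.isFam
  have hp := h.hp
  have he' : lm J - e ≤ CH G.p G.τ (bv G.Z G.v) := he
  have hq := pC_nonneg (M := 2 ^ J) (Z := G.Z) (v := G.v) (u := G.u) (τ := G.τ) hp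
  have he0 : 0 ≤ e := by
    have h1 := CH_time_le (M := 2 ^ J) hp h.h1 (τ := G.τ) h.hτ (bv G.Z G.v)
    have h2 : Real.log ((2 ^ J : ℕ) : ℝ) = lm J := by
      unfold lm
      push_cast
      rw [Real.log_pow]
    linarith
  refine
    { e0 := by linarith
      cp := ?_
      cl := ?_
      cv := ?_
      cs := ?_
      ct := ?_
      l0 := ?_
      l1 := ?_
      l2 := ?_
      sC := ?_
      sA := ?_
      sB := ?_
      sC₂ := ?_
      sA₂ := ?_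
      sym := ?_ }
  · have h1 := cpP h he'
    have h2 := (pC_fst (M := 2 ^ J) (Z := G.Z) (v := G.v) (u := G.u) (τ := G.τ) hp).CH
      (fun w => ((G.v w.1.1.1, G.v w.2.1), G.τ w.1.1.1)) (fun w => G.Z w.1.1.1)
    change _ ≤ CH (pC (2 ^ J) G.p G.Z G.v G.u G.τ)
      (fun w => ((G.v w.1.1.1.1, G.v w.1.2.1), G.τ w.1.1.1.1)) (fun w => G.Z w.1.1.1.1)
    refine le_trans ?_ (h1.trans (le_of_eq h2.symm))
    unfold Fm.L Fm.sb
    linarith
  · refine le_trans ?_ (clC h he')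
    unfold Fm.L Fm.sb
    linarith
  · refine le_trans ?_ (cvC h he')
    unfold Fm.L Fm.sb
    linarith
  · have h1 := csP h he'
    have h2 := (pC_fst (M := 2 ^ J) (Z := G.Z) (v := G.v) (u := G.u) (τ := G.τ) hp).CH
      (fun w => G.τ w.1.1.2)
      (fun w => ((G.v w.1.1.1, G.v w.2.1), G.τ w.1.1.1, G.Z w.1.1.1))
    refine le_trans ?_ (h1.trans (le_of_eq h2.symm))
    linarith
  · refine le_trans ?_ (ctC h he')
    linarith
  · exact (m0 G).CH G.v G.Z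
  · refine Eq.trans ?_ ((m1 G).CH G.v G.Z)
    refine CH_eqOn hq (fun _ _ => rfl) fun w hw => ?_
    exact (pP_supp h (pC_supp h hw).1).2.2.1.1.symm
  · refine Eq.trans ?_ ((m2 G).CH G.v G.Z)
    refine CH_eqOn hq (fun _ _ => rfl) fun w hw => ?_
    exact (pC_supp h hw).2.2.1.symm
  · refine le_of_eq (Eq.trans ?_ ((m0' G).CH (pp J G.u G.v G.τ) G.Z))
    refine CH_eqOn hq (fun w hw => ?_) fun w hw => ?_
    · have s := (tri_supp h (pP_supp h (pC_supp h hw).1).1).2.1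
      change (G.τ w.1.1.1.2, rd (pos (2 ^ J) (G.u w.1.1.1.1) (G.v w.1.1.1.1) (G.τ w.1.1.1.2))) =
        (G.τ w.1.1.1.2, rd (pos (2 ^ J) (G.u w.1.1.1.2) (G.v w.1.1.1.2) (G.τ w.1.1.1.2)))
      rw [s.2.1, s.2.2]
    · exact (tri_supp h (pP_supp h (pC_supp h hw).1).1).2.1.1.symm
  · refine le_of_eq (Eq.trans ?_ ((m0'' G).CH (pp J G.u G.v G.τ) G.Z))
    refine CH_eqOn hq (fun w hw => ?_) fun w hw => ?_
    · have s := (tri_supp h (pP_supp h (pC_supp h hw).1).1).2.2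
      change (G.τ w.1.1.2, rd (pos (2 ^ J) (G.u w.1.1.1.1) (G.v w.1.1.1.1) (G.τ w.1.1.2))) =
        (G.τ w.1.1.2, rd (pos (2 ^ J) (G.u w.1.1.2) (G.v w.1.1.2) (G.τ w.1.1.2)))
      rw [s.2.1, s.2.2]
    · exact (tri_supp h (pP_supp h (pC_supp h hw).1).1).2.2.1.symm
  · refine le_of_eq (Eq.trans ?_ ((m1' G).CH (pp J G.u G.v G.τ) G.Z))
    refine CH_eqOn hq (fun w hw => ?_) fun w hw => ?_
    · have s := (pP_supp h (pC_supp h hw).1).2.2.2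
      change (G.τ w.1.2.2, rd (pos (2 ^ J) (G.u w.1.2.1) (G.v w.1.2.1) (G.τ w.1.2.2))) =
        (G.τ w.1.2.2, rd (pos (2 ^ J) (G.u w.1.2.2) (G.v w.1.2.2) (G.τ w.1.2.2)))
      rw [s.2.1, s.2.2]
    · exact (pP_supp h (pC_supp h hw).1).2.2.2.1.symm
  · refine le_of_eq (Eq.trans ?_ ((m2' G).CH (pp J G.u G.v G.τ) G.Z))
    refine CH_eqOn hq (fun w hw => ?_) fun w hw => ?_
    · have s := (tri_supp h (pC_supp h hw).2.1).2.1
      change (G.τ w.2.1.2, rd (pos (2 ^ J) (G.u w.2.1.1) (G.v w.2.1.1) (G.τ w.2.1.2))) =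
        (G.τ w.2.1.2, rd (pos (2 ^ J) (G.u w.2.1.2) (G.v w.2.1.2) (G.τ w.2.1.2)))
      rw [s.2.1, s.2.2]
    · have s := (tri_supp h (pC_supp h hw).2.1).2.1.1
      exact (s.trans (pC_supp h hw).2.2.1).symm
  · refine le_of_eq (Eq.trans ?_ ((m2'' G).CH (pp J G.u G.v G.τ) G.Z))
    refine CH_eqOn hq (fun w hw => ?_) fun w hw => ?_
    · have s := (tri_supp h (pC_supp h hw).2.1).2.2
      change (G.τ w.2.2, rd (pos (2 ^ J) (G.u w.2.1.1) (G.v w.2.1.1) (G.τ w.2.2))) =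
        (G.τ w.2.2, rd (pos (2 ^ J) (G.u w.2.2) (G.v w.2.2) (G.τ w.2.2)))
      rw [s.2.1, s.2.2]
    · have s := (tri_supp h (pC_supp h hw).2.1).2.2.1
      exact (s.trans (pC_supp h hw).2.2.1).symm
  · -- symmetry
    have h1 := (pC_02 (M := 2 ^ J) (Z := G.Z) (v := G.v) (u := G.u) (τ := G.τ) hp).CH
      (fun w => (pp J G.u G.v G.τ w.1.2, pp J G.u G.v G.τ w.2.2)) (fun w => G.Z w.1.1.1)
    have h2 := (pC_fst (M := 2 ^ J) (Z := G.Z) (v := G.v) (u := G.u) (τ := G.τ) hp).CH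
      (fun w => (pp J G.u G.v G.τ w.1.2, pp J G.u G.v G.τ w.2.2)) (fun w => G.Z w.1.1.1)
    have h3 : CH (pC (2 ^ J) G.p G.Z G.v G.u G.τ)
        (fun w => ((cfg G).P w, (cfg G).C₂ w)) (fun w => G.Z w.1.1.1.1) =
        CH (pC (2 ^ J) G.p G.Z G.v G.u G.τ)
        (fun w => (pp J G.u G.v G.τ w.1.1.1.1, pp J G.u G.v G.τ w.2.1.2))
        (fun w => G.Z w.1.1.1.2) := by
      refine CH_eqOn hq (fun w hw => ?_) fun w hw => ?_
      · have s := (tri_supp h (pC_supp h hw).2.1).2.1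
        refine Prod.ext rfl ?_
        change (G.τ w.2.1.2, rd (pos (2 ^ J) (G.u w.2.1.1) (G.v w.2.1.1) (G.τ w.2.1.2))) =
          (G.τ w.2.1.2, rd (pos (2 ^ J) (G.u w.2.1.2) (G.v w.2.1.2) (G.τ w.2.1.2)))
        rw [s.2.1, s.2.2]
      · exact (tri_supp h (pP_supp h (pC_supp h hw).1).1).2.1.1.symm
    have h4 : CH (pC (2 ^ J) G.p G.Z G.v G.u G.τ)
        (fun w => ((cfg G).A w, (cfg G).B w)) (fun w => G.Z w.1.1.1.1) =
        CH (pC (2 ^ J) G.p G.Z G.v G.u G.τ)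
        (fun w => (pp J G.u G.v G.τ w.1.1.2, pp J G.u G.v G.τ w.1.2.2))
        (fun w => G.Z w.1.1.1.1) := by
      refine CH_eqOn hq (fun w hw => ?_) fun w hw => rfl
      have s := (tri_supp h (pP_supp h (pC_supp h hw).1).1).2.2
      have s' := (pP_supp h (pC_supp h hw).1).2.2.2
      refine Prod.ext ?_ ?_
      · change (G.τ w.1.1.2, rd (pos (2 ^ J) (G.u w.1.1.1.1) (G.v w.1.1.1.1) (G.τ w.1.1.2))) =
          (G.τ w.1.1.2, rd (pos (2 ^ J) (G.u w.1.1.2) (G.v w.1.1.2) (G.τ w.1.1.2)))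
        rw [s.2.1, s.2.2]
      · change (G.τ w.1.2.2, rd (pos (2 ^ J) (G.u w.1.2.1) (G.v w.1.2.1) (G.τ w.1.2.2))) =
          (G.τ w.1.2.2, rd (pos (2 ^ J) (G.u w.1.2.2) (G.v w.1.2.2) (G.τ w.1.2.2)))
        rw [s'.2.1, s'.2.2]
    change CH (pC (2 ^ J) G.p G.Z G.v G.u G.τ)
        (fun w => ((cfg G).P w, (cfg G).C₂ w)) (fun w => G.Z w.1.1.1.1) =
      CH (pC (2 ^ J) G.p G.Z G.v G.u G.τ)
        (fun w => ((cfg G).A w, (cfg G).B w)) (fun w => G.Z w.1.1.1.1)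
    rw [h3, h4]
    exact h1.trans h2.symm

end Main

end Pool.KTH.CFG80

namespace Pool.KTH

/-- (CFG) Every family has a configuration. -/
theorem cfg : CFGStmt := by
  intro d J G e he
  exact ⟨CFG80.cfg G, CFG80.ok G he, CFG80.y01_eq G, fun N μ τ h => CFG80.spr G h⟩

end Pool.KTH
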